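import Mathlib
import Pool.Prelude.Def_F_8db9d53c
import Pool.Agent.X68.CopGirth

/-!
# MP_64c30f_co, Q1: the cop number is not bounded by any function of the optimal pebbling number

The incidence graph of a finite projective plane has optimal pebbling number at most `8`
(its diameter is `3`), but it has girth `6` and is regular of degree `q + 1`, so that its cop
number is at least `q + 1`.
-/

namespace Pool.Agent.Results.MP_64c30f_co.ProjectivePlanes

open N6ef48c04 Pool.Agent.X68 Configuration
open scoped LinearAlgebra.Projectivization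

section Pebbling

variable {V : Type*} [Fintype V]

open Classical in
/-- A pebbling move: two pebbles are removed from `u`, one pebble is added at a neighbour `w`. -/
def PebblingMove (G : SimpleGraph V) (D D' : V → ℕ) : Prop :=
  ∃ u w, G.Adj u w ∧ 2 ≤ D u ∧
    D' = Function.update (Function.update D u (D u - 2)) w (D w + 1)

/-- The vertex `r` is reachable from the distribution `D`: some sequence of pebbling moves leads
to a distribution with a pebble on `r`. -/
def PebbleReachable (G : SimpleGraph V) (D : V → ℕ) (r : V) : Prop :=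
  ∃ D', Relation.ReflTransGen (PebblingMove G) D D' ∧ 1 ≤ D' r

/-- The optimal pebbling number. -/
noncomputable def optimalPebblingNumber (G : SimpleGraph V) : ℕ :=
  sInf {m : ℕ | ∃ D : V → ℕ, ∑ v, D v = m ∧ ∀ r, PebbleReachable G D r}

theorem many_moves {G : SimpleGraph V} {v w : V} (h : G.Adj v w) (n : ℕ) :
    ∀ D : V → ℕ, 2 * n ≤ D v → ∃ D', Relation.ReflTransGen (PebblingMove G) D D' ∧ n ≤ D' w := by
  classical
  induction n with
  | zero => exact fun D _ => ⟨D, Relation.ReflTransGen.refl, Nat.zero_le _⟩
  | succ n ih =>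
    intro D hD
    have hne : v ≠ w := h.ne
    -- the n+1 moves are made one after the other; keep track of both counts
    suffices H : ∀ m : ℕ, ∀ D : V → ℕ, 2 * m ≤ D v →
        ∃ D', Relation.ReflTransGen (PebblingMove G) D D' ∧ D w + m ≤ D' w by
      obtain ⟨D', h1, h2⟩ := H (n + 1) D hD
      exact ⟨D', h1, by omega⟩
    intro m
    induction m with
    | zero => exact fun D _ => ⟨D, Relation.ReflTransGen.refl, le_rfl⟩
    | succ m ihm =>
      intro D hD
      let D₁ := Function.update (Function.update D v (D v - 2)) w (D w + 1)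
      have hm : PebblingMove G D D₁ := ⟨v, w, h, by omega, by congr⟩
      have hv : D₁ v = D v - 2 := by simp [D₁, hne]
      have hw : D₁ w = D w + 1 := by simp [D₁]
      obtain ⟨D', h1, h2⟩ := ihm D₁ (by omega)
      exact ⟨D', Relation.ReflTransGen.head hm h1, by omega⟩

theorem reach_zero {G : SimpleGraph V} {r : V} (D : V → ℕ) (h : 2 ^ 0 ≤ D r) :
    PebbleReachable G D r := ⟨D, Relation.ReflTransGen.refl, by simpa using h⟩

theorem reach_step {G : SimpleGraph V} {v w r : V} {j : ℕ} (hvw : G.Adj v w)
    (h : ∀ D : V → ℕ, 2 ^ j ≤ D w → PebbleReachable G D r) (D : V → ℕ) (hD : 2 ^ (j + 1) ≤ D v) :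
    PebbleReachable G D r := by
  obtain ⟨D', h1, h2⟩ := many_moves hvw (2 ^ j) D (by rw [pow_succ] at hD; omega)
  obtain ⟨D'', h3, h4⟩ := h D' h2
  exact ⟨D'', h1.trans h3, h4⟩

end Pebbling

section Plane

variable (P L : Type) [Membership P L]

/-- The incidence graph. -/
def incidenceGraph : SimpleGraph (P ⊕ L) where
  Adj x y := match x, y with
    | Sum.inl p, Sum.inr l => p ∈ l
    | Sum.inr l, Sum.inl p => p ∈ l
    | _, _ => False
  symm := ⟨by
    rintro (p | l) (q | m) h
    · exact h
    · exact h
    · exact h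
    · exact h⟩
  loopless := ⟨by
    rintro (p | l) h
    · exact h
    · exact h⟩

variable {P L}

theorem adj_pl {p : P} {l : L} (h : p ∈ l) : (incidenceGraph P L).Adj (Sum.inl p) (Sum.inr l) := h
theorem adj_lp {p : P} {l : L} (h : p ∈ l) : (incidenceGraph P L).Adj (Sum.inr l) (Sum.inl p) := h

theorem noShort [ProjectivePlane P L] : NoShortCycle (incidenceGraph P L) := by
  constructor
  · rintro (p | l) (q | m) (r | n) h1 h2 h3
    all_goals first
      | exact (h1 : False).elim
      | exact (h2 : False).elim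
      | exact (h3 : False).elim
  · rintro (p | l) (q | m) (r | n) (s | o) hne h1 h2 h3 h4
    all_goals first
      | exact (h1 : False).elim
      | exact (h2 : False).elim
      | exact (h3 : False).elim
      | exact (h4 : False).elim
      | skip
    · have h1' : p ∈ n := h1
      have h2' : q ∈ n := h2
      have h3' : p ∈ o := h3
      have h4' : q ∈ o := h4
      rcases Nondegenerate.eq_or_eq h1' h2' h3' h4' with h | h
      · exact absurd (by rw [h]) hne
      · rw [h]
    · have h1' : r ∈ l := h1
      have h2' : r ∈ m := h2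
      have h3' : s ∈ l := h3
      have h4' : s ∈ m := h4
      rcases Nondegenerate.eq_or_eq h1' h3' h2' h4' with h | h
      · rw [h]
      · exact absurd (by rw [h]) hne

theorem exists_inj_of_card {α : Type} [Finite α] {d : ℕ} (h : d ≤ Nat.card α) :
    ∃ f : Fin d → α, Function.Injective f := by
  have e : Nonempty (Fin d ↪ α) := by
    have := Fintype.ofFinite α
    apply Function.Embedding.nonempty_of_card_le
    rw [Fintype.card_fin, ← Nat.card_eq_fintype_card]
    exact h
  obtain ⟨e⟩ := e
  exact ⟨e, e.injective⟩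

theorem minDeg [Finite P] [Finite L] [ProjectivePlane P L] :
    MinDeg (incidenceGraph P L) (ProjectivePlane.order P L + 1) := by
  rintro (p | l)
  · have h := ProjectivePlane.lineCount_eq (L := L) p
    unfold lineCount at h
    obtain ⟨f, hf⟩ := exists_inj_of_card (α := {l : L // p ∈ l}) h.ge
    refine ⟨fun i => Sum.inr (f i).1, ?_, fun i => adj_pl (f i).2⟩
    intro a b hab
    exact hf (Subtype.ext (Sum.inr.inj hab))
  · have h := ProjectivePlane.pointCount_eq (P := P) l
    unfold pointCount at h
    obtain ⟨f, hf⟩ := exists_inj_of_card (α := {p : P // p ∈ l}) h.ge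
    refine ⟨fun i => Sum.inl (f i).1, ?_, fun i => adj_lp (f i).2⟩
    intro a b hab
    exact hf (Subtype.ext (Sum.inl.inj hab))

theorem reach3 [Fintype P] [Fintype L] [ProjectivePlane P L] (p₀ : P) (r : P ⊕ L) :
    (incidenceGraph P L).Reachable (Sum.inl p₀) r ∧
    ∀ D : P ⊕ L → ℕ, 8 ≤ D (Sum.inl p₀) → PebbleReachable (incidenceGraph P L) D r := by
  classical
  rcases r with p | l
  · by_cases h : p₀ = p
    · subst h
      exact ⟨SimpleGraph.Reachable.refl _, fun D hD => reach_zero D (by omega)⟩
    · obtain ⟨h1, h2⟩ := HasLines.mkLine_ax (L := L) h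
      refine ⟨(adj_pl h1).reachable.trans (adj_lp h2).reachable, fun D hD => ?_⟩
      exact reach_step (j := 1) (adj_pl h1)
        (reach_step (j := 0) (adj_lp h2) (fun D hD => reach_zero D hD)) D (by omega)
  · by_cases h : p₀ ∈ l
    · refine ⟨(adj_pl h).reachable, fun D hD => ?_⟩
      exact reach_step (j := 0) (adj_pl h) (fun D hD => reach_zero D hD) D (by omega)
    · have hpos : 0 < pointCount P l := by
        have := ProjectivePlane.two_lt_pointCount P l
        omega
      obtain ⟨⟨q, hq⟩⟩ : Nonempty {p : P // p ∈ l} := (Nat.card_pos_iff.mp hpos).1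
      have hne : p₀ ≠ q := fun he => h (he ▸ hq)
      obtain ⟨h1, h2⟩ := HasLines.mkLine_ax (L := L) hne
      refine ⟨((adj_pl h1).reachable.trans (adj_lp h2).reachable).trans (adj_pl hq).reachable,
        fun D hD => ?_⟩
      exact reach_step (j := 2) (adj_pl h1) (reach_step (j := 1) (adj_lp h2)
        (reach_step (j := 0) (adj_pl hq) (fun D hD => reach_zero D hD))) D (by omega)

theorem pebbling_le [Fintype P] [Fintype L] [ProjectivePlane P L] (p₀ : P) :
    optimalPebblingNumber (incidenceGraph P L) ≤ 8 := by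
  classical
  apply Nat.sInf_le
  refine ⟨Pi.single (Sum.inl p₀) 8, ?_, fun r => (reach3 p₀ r).2 _ (by simp)⟩
  simp

theorem connected [Fintype P] [Fintype L] [ProjectivePlane P L] (p₀ : P) :
    (incidenceGraph P L).Connected := by
  have : Nonempty (P ⊕ L) := ⟨Sum.inl p₀⟩
  exact ⟨fun x y => ((reach3 p₀ x).1).symm.trans (reach3 p₀ y).1⟩

end Plane

theorem order_field (p : ℕ) [Fact p.Prime] :
    ProjectivePlane.order (ℙ (ZMod p) (Fin 3 → ZMod p)) (ℙ (ZMod p) (Fin 3 → ZMod p)) = p := by
  classical
  have : Finite (ℙ (ZMod p) (Fin 3 → ZMod p)) := Quotient.finite _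
  have := Fintype.ofFinite (ℙ (ZMod p) (Fin 3 → ZMod p))
  have h1 := ProjectivePlane.card_points (ℙ (ZMod p) (Fin 3 → ZMod p))
    (ℙ (ZMod p) (Fin 3 → ZMod p))
  have h2 := Projectivization.card_of_finrank (k := ZMod p) (V := Fin 3 → ZMod p) (n := 3)
    (by simp)
  rw [Nat.card_eq_fintype_card, h1] at h2
  simp only [Nat.card_eq_fintype_card, ZMod.card, Finset.sum_range_succ, Finset.sum_range_zero,
    pow_zero, pow_one, zero_add] at h2
  nlinarith [h2]

/-- **Q1 of MP_64c30f_co, answered affirmatively and in a strong form.**  For every `k` there is a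
finite connected graph with optimal pebbling number at most `8` and cop number at least `k`.
In particular there is a finite connected graph `G` with `c(G) > π*(G)`. -/
theorem result :
    (∀ k : ℕ, ∃ (V : Type) (_ : Fintype V) (G : SimpleGraph V), G.Connected ∧
      optimalPebblingNumber G ≤ 8 ∧ k ≤ copNumber G) ∧
    ∃ (V : Type) (_ : Fintype V) (G : SimpleGraph V), G.Connected ∧
      optimalPebblingNumber G < copNumber G := by
  have H : ∀ k : ℕ, ∃ (V : Type) (_ : Fintype V) (G : SimpleGraph V), G.Connected ∧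
      optimalPebblingNumber G ≤ 8 ∧ k ≤ copNumber G := by
    intro k
    obtain ⟨p, hkp, hp⟩ := Nat.exists_infinite_primes k
    have : Fact p.Prime := ⟨hp⟩
    have : Finite (ℙ (ZMod p) (Fin 3 → ZMod p)) := Quotient.finite _
    have := Fintype.ofFinite (ℙ (ZMod p) (Fin 3 → ZMod p))
    have p₀ : ℙ (ZMod p) (Fin 3 → ZMod p) :=
      Projectivization.mk (ZMod p) (fun _ => 1) (by
        intro h
        exact one_ne_zero (congrFun h 0))
    refine ⟨ℙ (ZMod p) (Fin 3 → ZMod p) ⊕ ℙ (ZMod p) (Fin 3 → ZMod p), inferInstance,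
      incidenceGraph _ _, connected p₀, pebbling_le p₀, ?_⟩
    have : Nonempty (ℙ (ZMod p) (Fin 3 → ZMod p) ⊕ ℙ (ZMod p) (Fin 3 → ZMod p)) :=
      ⟨Sum.inl p₀⟩
    have := le_copNumber (noShort (P := ℙ (ZMod p) (Fin 3 → ZMod p))
      (L := ℙ (ZMod p) (Fin 3 → ZMod p))) minDeg
    rw [order_field p] at this
    omega
  refine ⟨H, ?_⟩
  obtain ⟨V, hV, G, h1, h2, h3⟩ := H 9
  exact ⟨V, hV, G, h1, by omega⟩

end Pool.Agent.Results.MP_64c30f_co.ProjectivePlanes
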